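import Pool.Agent.H51.EM.Targets

/-!
# Row DIFF of the board em_modules (MP_58ae59_nt): the entries near `X0`

This is an adaptation of the file `Pool/Agent/H1/EI/DIFF.lean`.
-/

set_option autoImplicit false

open Polynomial Finset

namespace Pool.Agent.H3.EM.DIFF

open Pool.Agent.H25.EE (Idx Ix mlt nd s0 s1 hn EX exo)
open Pool.Agent.H51.EM
open Pool.Agent.H51.EI (Disc toC ev plen rts vv ResP FR RP FTI phq thq KK KX)

private theorem pow_diff (R : ℝ) (hR : 1 ≤ R) (x y : ℂ) (hx : ‖x‖ ≤ R) (hy : ‖y‖ ≤ R) (i : ℕ) :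
    ‖x ^ i - y ^ i‖ ≤ ‖x - y‖ * (i * R ^ i) := by
  have hR0 : 0 ≤ R := by linarith
  induction i with
  | zero => simp
  | succ i ih =>
    have e : x ^ (i + 1) - y ^ (i + 1) = x * (x ^ i - y ^ i) + (x - y) * y ^ i := by ring
    have h1 : ‖x * (x ^ i - y ^ i)‖ ≤ R * (‖x - y‖ * (i * R ^ i)) := by
      rw [norm_mul]
      exact mul_le_mul hx ih (norm_nonneg _) hR0
    have h2 : ‖(x - y) * y ^ i‖ ≤ ‖x - y‖ * R ^ i := by
      rw [norm_mul, norm_pow]
      exact mul_le_mul_of_nonneg_left (pow_le_pow_left₀ (norm_nonneg _) hy i) (norm_nonneg _)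
    have h3 : 0 ≤ ‖x - y‖ * R ^ i := by positivity
    have h5 : ‖x - y‖ * R ^ i ≤ R * (‖x - y‖ * R ^ i) := le_mul_of_one_le_left h3 hR
    rw [e]
    refine (norm_add_le _ _).trans ?_
    have h4 : ‖x - y‖ * (((i + 1 : ℕ) : ℝ) * R ^ (i + 1)) =
        R * (‖x - y‖ * (i * R ^ i)) + R * (‖x - y‖ * R ^ i) := by
      push_cast
      ring
    rw [h4]
    linarith

variable {O : Subring ℂ}

private theorem ev_sum (P : (↥O)[X]) (x : ℂ) :
    ev P x = ∑ i ∈ P.support, ((P.coeff i : O) : ℂ) * x ^ i := by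
  unfold ev toC
  rw [Polynomial.eval_map, Polynomial.eval₂_eq_sum, Polynomial.sum]
  rfl

private theorem ev_diff (R : ℝ) (hR : 1 ≤ R) (P : (↥O)[X]) (x y : ℂ) (hx : ‖x‖ ≤ R)
    (hy : ‖y‖ ≤ R) :
    ‖ev P x - ev P y‖ ≤ ‖x - y‖ * (plen P * (P.natDegree * R ^ P.natDegree)) := by
  rw [ev_sum, ev_sum, ← Finset.sum_sub_distrib]
  refine (norm_sum_le _ _).trans ?_
  have e : ‖x - y‖ * (plen P * (P.natDegree * R ^ P.natDegree)) =
      ∑ i ∈ P.support, ‖((P.coeff i : O) : ℂ)‖ * (‖x - y‖ * (P.natDegree * R ^ P.natDegree)) := by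
    unfold plen
    rw [← Finset.sum_mul]
    ring
  rw [e]
  refine Finset.sum_le_sum fun i hi => ?_
  rw [← mul_sub, norm_mul]
  refine mul_le_mul_of_nonneg_left ((pow_diff R hR x y hx hy i).trans ?_) (norm_nonneg _)
  refine mul_le_mul_of_nonneg_left ?_ (norm_nonneg _)
  have hiD : i ≤ P.natDegree := Polynomial.le_natDegree_of_mem_supp i hi
  have hiR : (i : ℝ) ≤ P.natDegree := by exact_mod_cast hiD
  exact mul_le_mul hiR (pow_le_pow_right₀ hR hiD) (by positivity) (Nat.cast_nonneg _)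

private theorem ev_bd (R : ℝ) (hR : 1 ≤ R) (P : (↥O)[X]) (x : ℂ) (hx : ‖x‖ ≤ R) :
    ‖ev P x‖ ≤ plen P * R ^ P.natDegree := by
  rw [ev_sum]
  refine (norm_sum_le _ _).trans ?_
  unfold plen
  rw [Finset.sum_mul]
  refine Finset.sum_le_sum fun i hi => ?_
  rw [norm_mul, norm_pow]
  refine mul_le_mul_of_nonneg_left ?_ (norm_nonneg _)
  have hiD : i ≤ P.natDegree := Polynomial.le_natDegree_of_mem_supp i hi
  exact (pow_le_pow_left₀ (norm_nonneg _) hx i).trans (pow_le_pow_right₀ hR hiD)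

private theorem mem_Ix {σ : ℚ} {J : ℕ} {a : Idx} (h : a ∈ Ix σ J) :
    a.1 ∈ nd J ∧ a.2 < mlt σ J a.1 := by
  unfold Ix at h
  rw [Finset.mem_sigma, Finset.mem_range] at h
  exact h

private theorem sq_le {J : ℕ} {x : ℤ × ℤ} (hx : x ∈ nd J) :
    (x.1 : ℝ) ^ 2 ≤ (J : ℝ) ^ 2 ∧ (x.2 : ℝ) ^ 2 ≤ (J : ℝ) ^ 2 := by
  unfold nd at hx
  rw [Finset.mem_product, Finset.mem_Icc, Finset.mem_Icc] at hx
  obtain ⟨⟨h1, h2⟩, h3, h4⟩ := hx
  have a1 : -(J : ℝ) ≤ (x.1 : ℝ) := by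
    have : ((-(J : ℤ) : ℤ) : ℝ) ≤ (x.1 : ℝ) := by exact_mod_cast h1
    push_cast at this
    exact this
  have a2 : (x.1 : ℝ) ≤ J := by exact_mod_cast h2
  have a3 : -(J : ℝ) ≤ (x.2 : ℝ) := by
    have : ((-(J : ℤ) : ℤ) : ℝ) ≤ (x.2 : ℝ) := by exact_mod_cast h3
    push_cast at this
    exact this
  have a4 : (x.2 : ℝ) ≤ J := by exact_mod_cast h4
  exact ⟨sq_le_sq' a1 a2, sq_le_sq' a3 a4⟩

theorem pf_DIFF (hENT : T_ENT) (hLEN : T_LEN) (hEXB : Pool.Agent.H25.EE.T_EXB)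
    (hCARD : Pool.Agent.H51.EI.T_CARD) : T_DIFF := by
  intro O X0 π
  obtain ⟨C, hC, hlen⟩ := hLEN O X0 π
  obtain ⟨J0, hent⟩ := hENT O X0 π
  have hq1 : 1 ≤ qq π := Nat.one_le_pow _ _ π.hr
  obtain ⟨R, hRdef⟩ : ∃ R : ℝ, R = ‖X0‖ + 1 := ⟨_, rfl⟩
  have hR1 : 1 ≤ R := by rw [hRdef]; linarith [norm_nonneg X0]
  have hlR : 0 ≤ Real.log R := Real.log_nonneg hR1
  have hqR : (1 : ℝ) ≤ qq π := by exact_mod_cast hq1
  refine ⟨3 + 2 * C + 2 * ((2 * qq π + 5) * (1 + Real.log R)), by positivity,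
    max J0 2, fun J hJ u v hV a ha b hb => ?_⟩
  have hJ0 : J0 ≤ J := (le_max_left _ _).trans hJ
  have hJ' : 2 ≤ J := (le_max_right _ _).trans hJ
  obtain ⟨ω, hω, hsum⟩ := hent J hJ0 u v hV a ha b hb
  refine ⟨_, hsum, fun x hx => ?_⟩
  obtain ⟨hdeg, hpl⟩ := hlen J hJ' u v hV a ha b hb
  obtain ⟨ha1, ha2⟩ := mem_Ix ha
  obtain ⟨hb1, hb2⟩ := mem_Ix hb
  have hJ2 : (2 : ℝ) ≤ J := by exact_mod_cast hJ'
  have hJsq : (1 : ℝ) ≤ (J : ℝ) ^ 2 := one_le_pow₀ (by linarith)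
  have ha3 : (a.2 : ℝ) ≤ (J : ℝ) ^ 2 := by
    have := ((hCARD (qq π) hq1).2.2.2.2 J a.1 ha1).1
    exact_mod_cast (ha2.le.trans this)
  have hb3 : (b.2 : ℝ) ≤ (J : ℝ) ^ 2 := by
    have := ((hCARD (qq π) hq1).2.2.2.2 J b.1 hb1).2
    exact_mod_cast (hb2.le.trans this)
  obtain ⟨q1, q2⟩ := sq_le ha1
  obtain ⟨q3, q4⟩ := sq_le hb1
  have hEX := hEXB a b
  obtain ⟨P, hP⟩ : ∃ P : (↥O)[X], P = mm π u v J a b := ⟨_, rfl⟩
  rw [← hP] at hdeg hpl ⊢
  have hD : (P.natDegree : ℝ) ≤ (2 * qq π + 5) * (J : ℝ) ^ 2 := by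
    have h1 : (P.natDegree : ℝ) ≤ (qq π : ℝ) * ((a.2 : ℝ) + b.2) + EX a b := by
      exact_mod_cast hdeg
    have h2 : (qq π : ℝ) * ((a.2 : ℝ) + b.2) ≤ (qq π : ℝ) * (2 * (J : ℝ) ^ 2) :=
      mul_le_mul_of_nonneg_left (by linarith) (by linarith)
    nlinarith
  -- the two points
  have hee : ‖X0‖ ≤ R := by rw [hRdef]; linarith
  have hx4 : ‖x‖ ≤ R := by
    have : ‖x‖ ≤ ‖x - X0‖ + ‖X0‖ := by
      have := norm_add_le (x - X0) X0
      rwa [sub_add_cancel] at this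
    rw [hRdef]
    linarith
  have hlog2 : (1 / 2 : ℝ) ≤ Real.log 2 := by
    have := Real.log_two_gt_d9
    linarith
  have hlogJ : Real.log 2 ≤ Real.log J := Real.log_le_log (by norm_num) hJ2
  -- degree factor
  have hdf : ((P.natDegree : ℝ) + 1) * R ^ P.natDegree ≤
      Real.exp ((2 * qq π + 5) * (J : ℝ) ^ 2 * (1 + Real.log R)) := by
    have h2 : (P.natDegree : ℝ) + 1 ≤ Real.exp (P.natDegree : ℝ) := Real.add_one_le_exp _
    have h4 : R ^ P.natDegree = Real.exp (P.natDegree * Real.log R) := by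
      rw [mul_comm, Real.exp_mul, Real.exp_log (by linarith), Real.rpow_natCast]
    calc ((P.natDegree : ℝ) + 1) * R ^ P.natDegree ≤
          Real.exp (P.natDegree : ℝ) * Real.exp (P.natDegree * Real.log R) := by
          rw [h4]
          exact mul_le_mul_of_nonneg_right h2 (Real.exp_pos _).le
      _ = Real.exp (P.natDegree * (1 + Real.log R)) := by
          rw [← Real.exp_add]
          ring_nf
      _ ≤ _ := by
          apply Real.exp_le_exp.mpr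
          exact mul_le_mul_of_nonneg_right hD (by linarith)
  have hpl0 : 0 ≤ plen P := Finset.sum_nonneg fun i _ => norm_nonneg _
  have hl0 : 0 ≤ Real.log J := by linarith
  have hall : plen P * (((P.natDegree : ℝ) + 1) * R ^ P.natDegree) ≤
      Real.exp ((3 + 2 * C + 2 * ((2 * qq π + 5) * (1 + Real.log R))) * (J : ℝ) ^ 2 *
          Real.log J) := by
    calc plen P * (((P.natDegree : ℝ) + 1) * R ^ P.natDegree) ≤
        Real.exp (((a.2 : ℝ) + b.2) * Real.log J + C * (J : ℝ) ^ 2 +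
          1 / (10 ^ 11 * qq π) * (J : ℝ) ^ 2 * Real.log J) *
          Real.exp ((2 * qq π + 5) * (J : ℝ) ^ 2 * (1 + Real.log R)) :=
        mul_le_mul hpl hdf (by positivity) (Real.exp_pos _).le
    _ = Real.exp ((((a.2 : ℝ) + b.2) * Real.log J + C * (J : ℝ) ^ 2 +
          1 / (10 ^ 11 * qq π) * (J : ℝ) ^ 2 * Real.log J) +
          (2 * qq π + 5) * (J : ℝ) ^ 2 * (1 + Real.log R)) := (Real.exp_add _ _).symm
    _ ≤ _ := by
        apply Real.exp_le_exp.mpr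
        have h2 : ((a.2 : ℝ) + b.2) * Real.log J ≤ 2 * (J : ℝ) ^ 2 * Real.log J :=
          mul_le_mul_of_nonneg_right (by linarith) hl0
        have h5 : (1 : ℝ) ≤ 2 * Real.log J := by linarith
        have h3 : (C + (2 * qq π + 5) * (1 + Real.log R)) * (J : ℝ) ^ 2 * 1 ≤
            (C + (2 * qq π + 5) * (1 + Real.log R)) * (J : ℝ) ^ 2 * (2 * Real.log J) :=
          mul_le_mul_of_nonneg_left h5 (by positivity)
        have h6 : (1 : ℝ) / (10 ^ 11 * qq π) ≤ 1 := by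
          rw [div_le_one (by positivity)]
          nlinarith
        have h7 : 1 / (10 ^ 11 * qq π) * (J : ℝ) ^ 2 * Real.log J ≤
            1 * (J : ℝ) ^ 2 * Real.log J := by gcongr
        nlinarith
  have hRp : 0 < R ^ P.natDegree := by positivity
  have k1 : plen P * (P.natDegree * R ^ P.natDegree) ≤
      Real.exp ((3 + 2 * C + 2 * ((2 * qq π + 5) * (1 + Real.log R))) * (J : ℝ) ^ 2 *
          Real.log J) := by
    refine le_trans ?_ hall
    gcongr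
    linarith
  have k2 : plen P * R ^ P.natDegree ≤
      Real.exp ((3 + 2 * C + 2 * ((2 * qq π + 5) * (1 + Real.log R))) * (J : ℝ) ^ 2 *
          Real.log J) := by
    refine le_trans ?_ hall
    have : (0 : ℝ) ≤ P.natDegree := Nat.cast_nonneg _
    refine mul_le_mul_of_nonneg_left ?_ hpl0
    nlinarith
  have hE : 0 < Real.exp (-((J : ℝ) ^ 4 * Real.log J)) := Real.exp_pos _
  have g1 : ‖ev P x - ev P X0‖ ≤ ‖x - X0‖ *
      Real.exp ((3 + 2 * C + 2 * ((2 * qq π + 5) * (1 + Real.log R))) * (J : ℝ) ^ 2 *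
          Real.log J) :=
    (ev_diff R hR1 P x X0 hx4 hee).trans (mul_le_mul_of_nonneg_left k1 (norm_nonneg _))
  have g2 : ‖ev P X0 * (1 - ω)‖ ≤ Real.exp (-((J : ℝ) ^ 4 * Real.log J)) *
      Real.exp ((3 + 2 * C + 2 * ((2 * qq π + 5) * (1 + Real.log R))) * (J : ℝ) ^ 2 *
          Real.log J) := by
    rw [norm_mul, mul_comm, norm_sub_rev]
    exact mul_le_mul hω ((ev_bd R hR1 P X0 hee).trans k2) (norm_nonneg _) hE.le
  have e : ev P x - ev P X0 * ω = (ev P x - ev P X0) + ev P X0 * (1 - ω) := by ring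
  rw [e, add_mul]
  exact (norm_add_le _ _).trans (add_le_add g1 g2)

end Pool.Agent.H3.EM.DIFF
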