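import Pool.Agent.H51.EM.Targets

/-!
# Row LEN of the board em_modules (MP_58ae59_nt): degree and length of the entries

This is the file `Pool/Agent/H89/EI/LEN.lean` with another estimate of the constant factor.
-/

set_option autoImplicit false

open Polynomial Finset

namespace Pool.Agent.H3.EM.LEN

open Pool.Agent.H51.EM
open Pool.Agent.H51.EI (Disc toC ev plen rts vv ResP FR RP FTI phq thq KK KX)
open Pool.Agent.H25.EE (Idx Ix mlt nd s0 s1 hn EX exo)

variable {O : Subring ℂ}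

private lemma plen_eq (P : (↥O)[X]) {S : Finset ℕ} (h : P.support ⊆ S) :
    plen P = ∑ i ∈ S, ‖(P.coeff i : ℂ)‖ := by
  unfold plen
  refine Finset.sum_subset h fun i _ hi => ?_
  rw [Polynomial.notMem_support_iff.1 hi]
  simp

private lemma plen_nonneg (P : (↥O)[X]) : 0 ≤ plen P :=
  Finset.sum_nonneg fun _ _ => norm_nonneg _

private lemma plen_add (P Q : (↥O)[X]) : plen (P + Q) ≤ plen P + plen Q := by
  rw [plen_eq (P + Q) (Polynomial.support_add (p := P) (q := Q)),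
    plen_eq P (Finset.subset_union_left (s₂ := Q.support)),
    plen_eq Q (Finset.subset_union_right (s₁ := P.support)), ← Finset.sum_add_distrib]
  refine Finset.sum_le_sum fun i _ => ?_
  rw [Polynomial.coeff_add]
  push_cast
  exact norm_add_le _ _

private lemma plen_sum {ι : Type*} (s : Finset ι) (f : ι → (↥O)[X]) :
    plen (∑ i ∈ s, f i) ≤ ∑ i ∈ s, plen (f i) := by
  classical
  induction s using Finset.induction_on with
  | empty => simp [plen]
  | insert a s ha ih =>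
    rw [Finset.sum_insert ha, Finset.sum_insert ha]
    exact (plen_add _ _).trans (by gcongr)

private lemma plen_C_mul (c : O) (P : (↥O)[X]) : plen (C c * P) ≤ ‖(c : ℂ)‖ * plen P := by
  have h : (C c * P).support ⊆ P.support := by
    intro i hi
    rw [Polynomial.mem_support_iff, Polynomial.coeff_C_mul] at hi
    rw [Polynomial.mem_support_iff]
    exact right_ne_zero_of_mul hi
  rw [plen_eq _ h, plen, Finset.mul_sum]
  refine Finset.sum_le_sum fun i _ => ?_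
  rw [Polynomial.coeff_C_mul]
  push_cast
  rw [norm_mul]

private lemma plen_X_pow_mul (n : ℕ) (P : (↥O)[X]) : plen (X ^ n * P) ≤ plen P := by
  have h1 : P.support ⊆ range (P.natDegree + 1) := Polynomial.supp_subset_range_natDegree_succ
  have h2 : (X ^ n * P).support ⊆ range (n + (P.natDegree + 1)) := by
    intro i hi
    rw [Polynomial.mem_support_iff, Polynomial.coeff_X_pow_mul'] at hi
    split_ifs at hi with hn
    · have := Polynomial.le_natDegree_of_ne_zero hi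
      rw [Finset.mem_range]
      omega
    · exact absurd rfl hi
  rw [plen_eq _ h2, plen_eq _ h1, Finset.sum_range_add]
  have h3 : ∑ x ∈ range n, ‖(((X ^ n * P).coeff x : O) : ℂ)‖ = 0 := by
    refine Finset.sum_eq_zero fun i hi => ?_
    rw [Polynomial.coeff_X_pow_mul', if_neg (by have := Finset.mem_range.1 hi; omega)]
    simp
  rw [h3, zero_add]
  refine Finset.sum_le_sum fun i _ => ?_
  rw [Polynomial.coeff_X_pow_mul', if_pos (by omega), Nat.add_sub_cancel_left]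

private lemma plen_mul (P Q : (↥O)[X]) : plen (P * Q) ≤ plen P * plen Q := by
  conv_lhs => rw [P.as_sum_support_C_mul_X_pow, Finset.sum_mul]
  refine (plen_sum _ _).trans ?_
  conv_rhs => rw [plen, Finset.sum_mul]
  refine Finset.sum_le_sum fun i _ => ?_
  rw [mul_assoc]
  refine (plen_C_mul _ _).trans ?_
  gcongr
  exact plen_X_pow_mul _ _

private lemma plen_one : plen (1 : (↥O)[X]) ≤ 1 := by
  rw [plen_eq (1 : (↥O)[X]) (S := {0}) (by
    intro i hi
    rw [Polynomial.mem_support_iff, Polynomial.coeff_one] at hi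
    rw [Finset.mem_singleton]
    by_contra h0
    rw [if_neg h0] at hi
    exact hi rfl)]
  simp

private lemma plen_C (c : O) : plen (C c) ≤ ‖(c : ℂ)‖ := by
  have h := plen_C_mul c 1
  rw [mul_one] at h
  calc plen (C c) ≤ ‖(c : ℂ)‖ * plen 1 := h
    _ ≤ ‖(c : ℂ)‖ * 1 := mul_le_mul_of_nonneg_left plen_one (norm_nonneg _)
    _ = ‖(c : ℂ)‖ := mul_one _

private lemma plen_pow (P : (↥O)[X]) (n : ℕ) {c : ℝ} (h : plen P ≤ c) : plen (P ^ n) ≤ c ^ n := by
  have hc : 0 ≤ c := (plen_nonneg P).trans h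
  induction n with
  | zero =>
    rw [pow_zero, pow_zero]
    exact plen_one
  | succ n ih =>
    rw [pow_succ, pow_succ]
    exact (plen_mul _ _).trans (mul_le_mul ih h (plen_nonneg _) (by positivity))

private lemma mul_bd {P Q : (↥O)[X]} {c d : ℝ} (h : plen P ≤ c) (h' : plen Q ≤ d) :
    plen (P * Q) ≤ c * d :=
  (plen_mul _ _).trans (mul_le_mul h h' (plen_nonneg _) ((plen_nonneg _).trans h))

private lemma norm_int (m : ℤ) : ‖(((m : ℤ) : O) : ℂ)‖ = |(m : ℝ)| := by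
  have : (((m : ℤ) : O) : ℂ) = (m : ℂ) := by simp
  rw [this, Complex.norm_intCast]

private lemma norm_nat (m : ℕ) : ‖(((m : ℕ) : O) : ℂ)‖ = (m : ℝ) := by
  have : (((m : ℕ) : O) : ℂ) = (m : ℂ) := by simp
  rw [this, Complex.norm_natCast]

/-- bound for `x.1 * P + x.2 * Q` -/
private lemma lin_bd {P Q : (↥O)[X]} {x : ℤ × ℤ} {J : ℕ} {c : ℝ} (hx : x ∈ nd J)
    (h : plen P + plen Q ≤ c) :
    plen (C ((x.1 : ℤ) : O) * P + C ((x.2 : ℤ) : O) * Q) ≤ c * J := by
  simp only [nd, Finset.mem_product, Finset.mem_Icc] at hx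
  have h1 : |(x.1 : ℝ)| ≤ J := by
    rw [abs_le]
    exact ⟨by exact_mod_cast hx.1.1, by exact_mod_cast hx.1.2⟩
  have h2 : |(x.2 : ℝ)| ≤ J := by
    rw [abs_le]
    exact ⟨by exact_mod_cast hx.2.1, by exact_mod_cast hx.2.2⟩
  have hP := plen_nonneg P
  have hQ := plen_nonneg Q
  have e1 := plen_C_mul ((x.1 : ℤ) : O) P
  have e2 := plen_C_mul ((x.2 : ℤ) : O) Q
  rw [norm_int] at e1 e2
  calc plen (C ((x.1 : ℤ) : O) * P + C ((x.2 : ℤ) : O) * Q)
      ≤ plen (C ((x.1 : ℤ) : O) * P) + plen (C ((x.2 : ℤ) : O) * Q) := plen_add _ _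
    _ ≤ |(x.1 : ℝ)| * plen P + |(x.2 : ℝ)| * plen Q := add_le_add e1 e2
    _ ≤ (J : ℝ) * plen P + (J : ℝ) * plen Q := by gcongr
    _ = (plen P + plen Q) * J := by ring
    _ ≤ c * J := by gcongr

variable {X0 : ℂ}

private lemma PP_bd (π : Par O X0) (J : ℕ) (a b : Idx) (c : ℝ) (hc : 1 ≤ c) (ha : a.1 ∈ nd J)
    (hb : b.1 ∈ nd J) (ha2 : a.2 ≤ J ^ 2) (hx : plen (π.x 0) + plen (π.x 1) ≤ c)
    (hy : plen (π.y 0) + plen (π.y 1) ≤ c) (hAB : plen π.A * plen π.B ≤ c) :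
    plen (PP π a b) ≤ 2 ^ b.2 * (c ^ (a.2 + b.2) * (J : ℝ) ^ (a.2 + b.2)) := by
  unfold PP
  refine (plen_sum _ _).trans ?_
  have hW : plen (Wp π a.1) ≤ c * J := lin_bd ha hx
  have hZ : plen (Zp π b.1) ≤ c * J := lin_bd hb hy
  have hL : plen (π.A * π.B) ≤ c := (plen_mul _ _).trans hAB
  have hJ0 : (0 : ℝ) ≤ J := Nat.cast_nonneg J
  have hc0 : (0 : ℝ) ≤ c := by linarith
  have hterm : ∀ l ∈ range (min a.2 b.2 + 1),
      plen (C (((l.factorial * a.2.choose l * b.2.choose l : ℕ) : O)) * Zp π b.1 ^ (a.2 - l) *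
        Wp π a.1 ^ (b.2 - l) * (π.A * π.B) ^ l) ≤
      (b.2.choose l : ℝ) * (c ^ (a.2 + b.2) * (J : ℝ) ^ (a.2 + b.2)) := by
    intro l hl
    have hl' : l ≤ min a.2 b.2 := Nat.lt_succ_iff.1 (Finset.mem_range.1 hl)
    have hla : l ≤ a.2 := hl'.trans (min_le_left _ _)
    have hlb : l ≤ b.2 := hl'.trans (min_le_right _ _)
    have h0 : ‖(((l.factorial * a.2.choose l * b.2.choose l : ℕ) : O) : ℂ)‖ ≤
        ((J : ℝ) ^ 2) ^ l * (b.2.choose l : ℝ) := by
      rw [norm_nat, Nat.cast_mul, ← Nat.descFactorial_eq_factorial_mul_choose]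
      gcongr
      calc ((a.2.descFactorial l : ℕ) : ℝ) ≤ ((a.2 ^ l : ℕ) : ℝ) := by
            exact_mod_cast Nat.descFactorial_le_pow _ _
        _ = (a.2 : ℝ) ^ l := by push_cast; ring
        _ ≤ ((J : ℝ) ^ 2) ^ l := by
          gcongr
          exact_mod_cast ha2
    have h1 := mul_bd (mul_bd (mul_bd ((plen_C _).trans h0) (plen_pow _ (a.2 - l) hZ))
      (plen_pow _ (b.2 - l) hW)) (plen_pow _ l hL)
    refine h1.trans ?_
    have e1 : ((J : ℝ) ^ 2) ^ l * (b.2.choose l : ℝ) * (c * J) ^ (a.2 - l) *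
        (c * J) ^ (b.2 - l) * c ^ l =
        (b.2.choose l : ℝ) * (c ^ ((a.2 - l) + (b.2 - l) + l) *
          (J : ℝ) ^ (2 * l + (a.2 - l) + (b.2 - l))) := by
      rw [mul_pow, mul_pow]
      ring
    rw [e1]
    have e2 : 2 * l + (a.2 - l) + (b.2 - l) = a.2 + b.2 := by omega
    rw [e2]
    have e3 : c ^ ((a.2 - l) + (b.2 - l) + l) ≤ c ^ (a.2 + b.2) :=
      pow_le_pow_right₀ hc (by omega)
    gcongr
  calc ∑ l ∈ range (min a.2 b.2 + 1),
      plen (C (((l.factorial * a.2.choose l * b.2.choose l : ℕ) : O)) * Zp π b.1 ^ (a.2 - l) *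
        Wp π a.1 ^ (b.2 - l) * (π.A * π.B) ^ l)
      ≤ ∑ l ∈ range (min a.2 b.2 + 1),
        (b.2.choose l : ℝ) * (c ^ (a.2 + b.2) * (J : ℝ) ^ (a.2 + b.2)) :=
        Finset.sum_le_sum hterm
    _ ≤ ∑ l ∈ range (b.2 + 1),
        (b.2.choose l : ℝ) * (c ^ (a.2 + b.2) * (J : ℝ) ^ (a.2 + b.2)) := by
        refine Finset.sum_le_sum_of_subset_of_nonneg ?_ fun l _ _ => by positivity
        exact Finset.range_subset_range.2 (by omega)
    _ = 2 ^ b.2 * (c ^ (a.2 + b.2) * (J : ℝ) ^ (a.2 + b.2)) := by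
        rw [← Finset.sum_mul]
        congr 1
        have := Nat.sum_range_choose b.2
        exact_mod_cast this

private lemma comb_deg (x y : O) {l m : (↥O)[X]} {q : ℕ} (hl : l.natDegree ≤ q)
    (hm : m.natDegree ≤ q) : (C x * l + C y * m).natDegree ≤ q :=
  (Polynomial.natDegree_add_le _ _).trans
    (max_le ((Polynomial.natDegree_C_mul_le _ _).trans hl)
      ((Polynomial.natDegree_C_mul_le _ _).trans hm))

private lemma PP_deg (π : Par O X0) (a b : Idx) :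
    (PP π a b).natDegree ≤ qq π * (a.2 + b.2) := by
  unfold PP
  refine Polynomial.natDegree_sum_le_of_forall_le _ _ fun l hl => ?_
  have hl' : l ≤ min a.2 b.2 := Nat.lt_succ_iff.1 (Finset.mem_range.1 hl)
  have hla : l ≤ a.2 := hl'.trans (min_le_left _ _)
  have hlb : l ≤ b.2 := hl'.trans (min_le_right _ _)
  have h1 : (Zp π b.1 ^ (a.2 - l)).natDegree ≤ (a.2 - l) * qq π :=
    Polynomial.natDegree_pow_le_of_le _ (comb_deg _ _ (π.hdy 0) (π.hdy 1))
  have h2 : (Wp π a.1 ^ (b.2 - l)).natDegree ≤ (b.2 - l) * qq π :=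
    Polynomial.natDegree_pow_le_of_le _ (comb_deg _ _ (π.hdx 0) (π.hdx 1))
  have h3 : ((π.A * π.B) ^ l).natDegree ≤ l * (qq π + qq π) :=
    Polynomial.natDegree_pow_le_of_le _ (Polynomial.natDegree_mul_le_of_le π.hdA π.hdB)
  have h4 := Polynomial.natDegree_mul_le_of_le (Polynomial.natDegree_mul_le_of_le
    (Polynomial.natDegree_mul_le_of_le (Polynomial.natDegree_C
      (((l.factorial * a.2.choose l * b.2.choose l : ℕ) : O))).le h1) h2) h3
  refine h4.trans ?_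
  obtain ⟨s, hs⟩ := Nat.exists_eq_add_of_le hla
  obtain ⟨t, ht⟩ := Nat.exists_eq_add_of_le hlb
  have e1 : a.2 - l = s := by omega
  have e2 : b.2 - l = t := by omega
  rw [e1, e2, hs, ht]
  refine le_of_eq ?_
  ring

private lemma exo_bd {J : ℕ} {a b : Idx} (ha : a.1 ∈ nd J) (hb : b.1 ∈ nd J) (i j : Fin 2) :
    |exo a b i j| ≤ (J : ℤ) ^ 2 := by
  simp only [nd, Finset.mem_product, Finset.mem_Icc] at ha hb
  have h1 : |(![a.1.1, a.1.2] : Fin 2 → ℤ) i| ≤ J := by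
    fin_cases i
    · exact abs_le.2 ⟨ha.1.1, ha.1.2⟩
    · exact abs_le.2 ⟨ha.2.1, ha.2.2⟩
  have h2 : |(![b.1.1, b.1.2] : Fin 2 → ℤ) j| ≤ J := by
    fin_cases j
    · exact abs_le.2 ⟨hb.1.1, hb.1.2⟩
    · exact abs_le.2 ⟨hb.2.1, hb.2.2⟩
  unfold exo
  rw [abs_mul, sq]
  exact mul_le_mul h1 h2 (abs_nonneg _) (by positivity)

private lemma root_bd {q J : ℕ} (hq : 1 ≤ q) (hJ : 1 ≤ J) {z : ℝ} (hz : 0 ≤ z)
    (h : z ^ (10 ^ 12 * q) ≤ J) : z ≤ Real.exp (Real.log J / (10 ^ 12 * q)) := by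
  have hJ0 : (0 : ℝ) < J := by exact_mod_cast hJ
  have hq0 : (0 : ℝ) < q := by exact_mod_cast hq
  have hn : 10 ^ 12 * q ≠ 0 := by positivity
  refine (pow_le_pow_iff_left₀ hz (Real.exp_pos _).le hn).1 ?_
  rw [← Real.exp_nat_mul]
  have e : ((10 ^ 12 * q : ℕ) : ℝ) * (Real.log J / (10 ^ 12 * q)) = Real.log J := by
    have hne : ((10 : ℝ) ^ 12 * q) ≠ 0 := by positivity
    rw [Nat.cast_mul, Nat.cast_pow, Nat.cast_ofNat, mul_div_cancel₀ _ hne]
  rw [e, Real.exp_log hJ0]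
  exact h

private lemma cst_bd (π : Par O X0) (u v : Fin 2 → Fin 2 → O) (J : ℕ) (hJ : 1 ≤ J)
    (hV : Val π J u v) (a b : Idx) (ha : a.1 ∈ nd J) (hb : b.1 ∈ nd J) :
    ‖(cst u v J a b : ℂ)‖ ≤ Real.exp (1 / (10 ^ 11 * qq π) * (J : ℝ) ^ 2 * Real.log J) := by
  have hq : 1 ≤ qq π := Nat.one_le_pow _ _ π.hr
  have hq0 : (0 : ℝ) < qq π := by exact_mod_cast hq
  have hlJ : 0 ≤ Real.log J := Real.log_nonneg (by exact_mod_cast hJ)
  obtain ⟨B, hB⟩ : ∃ B : ℝ, B = Real.exp (Real.log J / (10 ^ 12 * qq π)) := ⟨_, rfl⟩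
  have hcoe : (cst u v J a b : ℂ) =
      ∏ i : Fin 2, ∏ j : Fin 2, ((u i j : ℂ) ^ ((J : ℤ) ^ 2 + exo a b i j).toNat *
        (v i j : ℂ) ^ ((J : ℤ) ^ 2 - exo a b i j).toNat) := by
    unfold cst
    push_cast
    rfl
  have hterm : ∀ i j : Fin 2, ‖(u i j : ℂ) ^ ((J : ℤ) ^ 2 + exo a b i j).toNat *
        (v i j : ℂ) ^ ((J : ℤ) ^ 2 - exo a b i j).toNat‖ ≤ B ^ (2 * J ^ 2) := by
    intro i j
    have h := abs_le.1 (exo_bd ha hb i j)
    have e1 : ((J : ℤ) ^ 2 + exo a b i j).toNat + ((J : ℤ) ^ 2 - exo a b i j).toNat =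
        2 * J ^ 2 := by
      have h1 : (((J : ℤ) ^ 2 + exo a b i j).toNat : ℤ) = (J : ℤ) ^ 2 + exo a b i j :=
        Int.toNat_of_nonneg (by linarith)
      have h2 : (((J : ℤ) ^ 2 - exo a b i j).toNat : ℤ) = (J : ℤ) ^ 2 - exo a b i j :=
        Int.toNat_of_nonneg (by linarith)
      zify
      rw [h1, h2]
      ring
    have hu := root_bd hq hJ (norm_nonneg _) (hV.huM i j)
    have hv := root_bd hq hJ (norm_nonneg _) (hV.hvM i j)
    rw [← hB] at hu hv
    rw [norm_mul, norm_pow, norm_pow, ← e1, pow_add]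
    have hB0 : 0 ≤ B := by rw [hB]; exact (Real.exp_pos _).le
    exact mul_le_mul (pow_le_pow_left₀ (norm_nonneg _) hu _)
      (pow_le_pow_left₀ (norm_nonneg _) hv _) (by positivity) (by positivity)
  have hB0 : 0 ≤ B := by rw [hB]; exact (Real.exp_pos _).le
  have h1 : ‖(cst u v J a b : ℂ)‖ ≤ ∏ _i : Fin 2, ∏ _j : Fin 2, B ^ (2 * J ^ 2) := by
    rw [hcoe, norm_prod]
    refine Finset.prod_le_prod (fun i _ => norm_nonneg _) fun i _ => ?_
    rw [norm_prod]
    exact Finset.prod_le_prod (fun j _ => norm_nonneg _) fun j _ => hterm i j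
  refine h1.trans ?_
  rw [Finset.prod_const, Finset.prod_const, Finset.card_univ, Fintype.card_fin, ← pow_mul,
    ← pow_mul, hB, ← Real.exp_nat_mul]
  apply Real.exp_le_exp.2
  have e2 : ((2 * J ^ 2 * (2 * 2) : ℕ) : ℝ) * (Real.log J / (10 ^ 12 * qq π)) =
      8 / (10 ^ 12 * qq π) * (J : ℝ) ^ 2 * Real.log J := by
    push_cast
    ring
  rw [e2]
  have e3 : (8 : ℝ) / (10 ^ 12 * qq π) ≤ 1 / (10 ^ 11 * qq π) := by
    rw [div_le_div_iff₀ (by positivity) (by positivity)]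
    nlinarith
  gcongr

theorem pf_LEN (hCARD : Pool.Agent.H51.EI.T_CARD) : T_LEN := by
  intro O X0 π
  obtain ⟨c, hc⟩ : ∃ c : ℝ, c = 1 + (plen (π.x 0) + plen (π.x 1)) +
    (plen (π.y 0) + plen (π.y 1)) + plen π.A * plen π.B := ⟨_, rfl⟩
  have hx1 := plen_nonneg (π.x 0)
  have hx2 := plen_nonneg (π.x 1)
  have hy1 := plen_nonneg (π.y 0)
  have hy2 := plen_nonneg (π.y 1)
  have hAB : 0 ≤ plen π.A * plen π.B := mul_nonneg (plen_nonneg _) (plen_nonneg _)
  have hc1 : 1 ≤ c := by rw [hc]; linarith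
  have hlc : 0 ≤ Real.log c := Real.log_nonneg hc1
  have hl2 : 0 ≤ Real.log 2 := Real.log_nonneg (by norm_num)
  have hq : 1 ≤ qq π := Nat.one_le_pow _ _ π.hr
  refine ⟨Real.log 2 + 2 * Real.log c, by positivity, fun J hJ u v hV a ha b hb => ?_⟩
  obtain ⟨ha1, ha2⟩ := Finset.mem_sigma.1 ha
  obtain ⟨hb1, hb2⟩ := Finset.mem_sigma.1 hb
  have ha3 : a.2 ≤ J ^ 2 :=
    (Finset.mem_range.1 ha2).le.trans ((hCARD (qq π) hq).2.2.2.2 J a.1 ha1).1
  have hb3 : b.2 ≤ J ^ 2 :=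
    (Finset.mem_range.1 hb2).le.trans ((hCARD (qq π) hq).2.2.2.2 J b.1 hb1).2
  constructor
  · unfold mm
    have h1 := Polynomial.natDegree_mul_le_of_le (Polynomial.natDegree_mul_le_of_le
      (Polynomial.natDegree_C (cst u v J a b)).le (PP_deg π a b))
      (Polynomial.natDegree_X_pow_le (R := O) (EX a b))
    rw [zero_add] at h1
    exact h1
  · have h1 := PP_bd π J a b c hc1 ha1 hb1 ha3 (by rw [hc]; linarith) (by rw [hc]; linarith)
      (by rw [hc]; linarith)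
    have h2 := cst_bd π u v J (by omega) hV a b ha1 hb1
    have h3 : plen (X ^ (EX a b) : (↥O)[X]) ≤ 1 := by
      have h := plen_X_pow_mul (EX a b) (1 : (↥O)[X])
      rw [mul_one] at h
      exact h.trans plen_one
    unfold mm
    refine (mul_bd (mul_bd ((plen_C _).trans h2) h1) h3).trans ?_
    have hJ0 : (0 : ℝ) < J := by
      have : 0 < J := by omega
      exact_mod_cast this
    have hc0 : 0 < c := by linarith
    have e2 : ((2 : ℝ) ^ b.2) = Real.exp ((b.2 : ℝ) * Real.log 2) := by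
      rw [Real.exp_nat_mul, Real.exp_log (by norm_num)]
    have e3 : c ^ (a.2 + b.2) = Real.exp (((a.2 : ℝ) + b.2) * Real.log c) := by
      have : ((a.2 : ℝ) + b.2) = ((a.2 + b.2 : ℕ) : ℝ) := by push_cast; ring
      rw [this, Real.exp_nat_mul, Real.exp_log hc0]
    have e4 : (J : ℝ) ^ (a.2 + b.2) = Real.exp (((a.2 : ℝ) + b.2) * Real.log J) := by
      have : ((a.2 : ℝ) + b.2) = ((a.2 + b.2 : ℕ) : ℝ) := by push_cast; ring
      rw [this, Real.exp_nat_mul, Real.exp_log hJ0]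
    rw [e2, e3, e4, mul_one, ← Real.exp_add, ← Real.exp_add, ← Real.exp_add]
    refine Real.exp_le_exp.2 ?_
    have ha4 : (a.2 : ℝ) ≤ (J : ℝ) ^ 2 := by exact_mod_cast ha3
    have hb4 : (b.2 : ℝ) ≤ (J : ℝ) ^ 2 := by exact_mod_cast hb3
    have h5 : (b.2 : ℝ) * Real.log 2 ≤ (J : ℝ) ^ 2 * Real.log 2 := by gcongr
    have h6 : ((a.2 : ℝ) + b.2) * Real.log c ≤ (2 * (J : ℝ) ^ 2) * Real.log c := by
      gcongr
      linarith
    linarith

end Pool.Agent.H3.EM.LEN
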